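import Pool.Agent.Helper52.SG.Goals

/-!
# Project SG: the goal SYLC
-/

set_option autoImplicit false

namespace Pool.Agent.Helper84.SG.SYLC

open Subgroup Pool.H83Shunkov Pool.Agent.Helper29.SH Pool.Agent.Helper52.SG
open scoped Pointwise

variable {G : Type} [Group G]

/-- Sylow in a finite subgroup `K` -/
theorem sylK {p : ℕ} (hp : p.Prime) {K A B : Subgroup G} (hK : (K : Set G).Finite)
    (hA : A ≤ K) (hB : B ≤ K) (pA : IsPGroup p A) (pB : IsPGroup p B) :
    ∃ k ∈ K, ∃ S : Subgroup G, S ≤ K ∧ IsPGroup p S ∧ A ≤ S ∧ cj B k ≤ S := by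
  have : Fact p.Prime := ⟨hp⟩
  have : Finite K := hK
  have pA' : IsPGroup p (A.subgroupOf K) :=
    pA.comap_of_injective K.subtype K.subtype_injective
  have pB' : IsPGroup p (B.subgroupOf K) :=
    pB.comap_of_injective K.subtype K.subtype_injective
  obtain ⟨P, hP⟩ := pA'.exists_le_sylow
  obtain ⟨Q, hQ⟩ := pB'.exists_le_sylow
  obtain ⟨g, hg⟩ := MulAction.exists_smul_eq K Q P
  refine ⟨(g⁻¹ : K), (g⁻¹).2, (P : Subgroup K).map K.subtype, ?_, P.2.map _, ?_, ?_⟩
  · rintro _ ⟨x, -, rfl⟩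
    exact x.2
  · intro x hx
    exact ⟨⟨x, hA hx⟩, hP hx, rfl⟩
  · intro x hx
    rw [mem_cj] at hx
    set y : G := ((g⁻¹ : K) : G) * x * ((g⁻¹ : K) : G)⁻¹ with hy
    have hyK : y ∈ K := hB hx
    have hyQ : (⟨y, hyK⟩ : K) ∈ (Q : Subgroup K) := hQ hx
    have h1 : g * ⟨y, hyK⟩ * g⁻¹ ∈ (P : Subgroup K) := by
      rw [← hg, Sylow.coe_subgroup_smul]
      exact ⟨_, hyQ, rfl⟩
    refine ⟨_, h1, ?_⟩
    show (g : G) * y * (g : G)⁻¹ = x
    rw [hy]
    show (g : G) * ((g : G)⁻¹ * x * (g : G)⁻¹⁻¹) * (g : G)⁻¹ = x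
    group

/-- normalizers grow -/
theorem grow {p : ℕ} (hp : p.Prime) {P X : Subgroup G} (hP : (P : Set G).Finite)
    (pP : IsPGroup p P) (hX : X ≤ P) (hne : X ≠ P) :
    Nat.card X < Nat.card (P ⊓ normalizer (X : Set G) : Subgroup G) := by
  have : Fact p.Prime := ⟨hp⟩
  have : Finite P := hP
  have : Group.IsNilpotent P := pP.isNilpotent
  have hlt : X.subgroupOf P < ⊤ := by
    rw [lt_top_iff_ne_top]
    intro h
    rw [subgroupOf_eq_top] at h
    exact hne (le_antisymm hX h)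
  have h1 := Group.normalizerCondition_of_isNilpotent (X.subgroupOf P) hlt
  obtain ⟨y, hy1, hy2⟩ := SetLike.exists_of_lt h1
  have hy3 : (y : G) ∈ P ⊓ normalizer (X : Set G) := by
    refine ⟨y.2, ?_⟩
    rw [Subgroup.mem_normalizer_iff] at hy1
    show (y : G) ∈ normalizer (X : Set G)
    rw [Subgroup.mem_normalizer_iff]
    intro h
    constructor
    · intro hh
      exact (hy1 ⟨h, hX hh⟩).1 hh
    · intro hh
      have hhP : h ∈ P := by
        have h2 := P.mul_mem (P.mul_mem (P.inv_mem y.2) (hX hh)) y.2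
        have e : (y : G)⁻¹ * ((y : G) * h * (y : G)⁻¹) * (y : G) = h := by group
        rwa [e] at h2
      exact (hy1 ⟨h, hhP⟩).2 hh
  have hXN : (X : Set G) ⊂ ((P ⊓ normalizer (X : Set G) : Subgroup G) : Set G) := by
    rw [Set.ssubset_iff_of_subset]
    · exact ⟨y, hy3, hy2⟩
    · intro x hx
      exact ⟨hX hx, le_normalizer hx⟩
  have hfin : ((P ⊓ normalizer (X : Set G) : Subgroup G) : Set G).Finite :=
    hP.subset (fun x hx => hx.1)
  exact Set.ncard_lt_ncard hXN hfin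

/-- bad subgroups -/
def Bad (a : G) (p : ℕ) (M P Q : Subgroup G) : Prop :=
  Syl a p M Q ∧ ∀ m ∈ M, Q ≠ cj P m

theorem syl_cj {a : G} {p : ℕ} {M Q : Subgroup G} (h : Syl a p M Q) {m : G} (hm : m ∈ M) :
    Syl a p M (cj Q m) := by
  refine ⟨?_, cj_isPGroup h.pg m, h.hc.cj m, ?_⟩
  · intro x hx
    have := cj_mono h.le m hx
    rwa [cj_eq_of_mem hm] at this
  · intro S' h1 h2 h3
    have h4 : Q ≤ cj S' m⁻¹ := by
      have := cj_mono h3 m⁻¹
      rwa [cj_inv_cancel] at this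
    have h5 : cj S' m⁻¹ ≤ M := by
      have := cj_mono h1 m⁻¹
      rwa [cj_eq_of_mem (M.inv_mem hm)] at this
    have h6 := h.max _ h5 (cj_isPGroup h2 _) h4
    have h7 := cj_mono h6 m
    rwa [cj_mul, inv_mul_cancel, cj_one] at h7

theorem Bad.cj {a : G} {p : ℕ} {M P Q : Subgroup G} (h : Bad a p M P Q) {m : G} (hm : m ∈ M) :
    Bad a p M P (Pool.Agent.Helper52.SG.cj Q m) := by
  refine ⟨syl_cj h.1 hm, ?_⟩
  intro n hn e
  apply h.2 (n * m⁻¹) (M.mul_mem hn (M.inv_mem hm))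
  rw [← cj_mul, ← e, cj_inv_cancel]

/-- the common part of the two steps -/
theorem step (hSYLE : S_SYLE) {a : G} {p : ℕ} (hp : p.Prime) {M P Q K A B : Subgroup G}
    (hQ : Bad a p M P Q) (hK : (K : Set G).Finite) (hKM : K ≤ M)
    (hAP : A ≤ P) (hAK : A ≤ K) (hBQ : B ≤ Q) (hBK : B ≤ K)
    (pA : IsPGroup p A) (pB : IsPGroup p B) (hA : HasC a A) :
    ∃ Q' : Subgroup G, Bad a p M P Q' ∧ (A ≤ P ⊓ Q' ∨ ∃ y, cj B y ≤ P ⊓ Q') := by
  obtain ⟨k, hk, S₀, h1, h2, h3, h4⟩ := sylK hp hK hAK hBK pA pB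
  obtain ⟨S, h5, h6⟩ := hSYLE G a p M S₀ (h1.trans hKM) h2 (hA.mono h3)
  by_cases hb : ∀ m ∈ M, S ≠ cj P m
  · exact ⟨S, ⟨h5, hb⟩, Or.inl (le_inf hAP (h3.trans h6))⟩
  · push Not at hb
    obtain ⟨m, hm, rfl⟩ := hb
    refine ⟨cj Q (k * m⁻¹), hQ.cj (M.mul_mem (hKM hk) (M.inv_mem hm)), Or.inr
      ⟨k * m⁻¹, le_inf ?_ (cj_mono hBQ _)⟩⟩
    have h7 := cj_mono (h4.trans h6) m⁻¹
    rwa [cj_inv_cancel, cj_mul] at h7

theorem t (hTORN : S_TORN) (hPFI2 : S_PFI2) (hSYLE : S_SYLE) : S_SYLC := by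
  intro G _ a p hSt M P Q₀ hP hQ₀
  by_contra hcon
  push Not at hcon
  have hPfin : (P : Set G).Finite := hPFI2 G a p hSt P hP.pg hP.hc
  -- Step 2
  have main : ∀ n : ℕ, ∀ Q : Subgroup G, Bad a p M P Q → HasC a (P ⊓ Q) →
      Nat.card P - Nat.card (P ⊓ Q : Subgroup G) = n → False := by
    intro n
    induction n using Nat.strong_induction_on with
    | _ n ih =>
      intro Q hQ hX hn
      have hQfin : (Q : Set G).Finite := hPFI2 G a p hSt Q hQ.1.pg hQ.1.hc
      -- a new bad subgroup with a larger intersection gives a contradiction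
      have key : ∀ Q' : Subgroup G, Bad a p M P Q' → HasC a (P ⊓ Q') →
          Nat.card (P ⊓ Q : Subgroup G) < Nat.card (P ⊓ Q' : Subgroup G) → False := by
        intro Q' h1 h2 h3
        have : Finite P := hPfin
        have h4 : Nat.card (P ⊓ Q' : Subgroup G) ≤ Nat.card P :=
          Nat.card_mono hPfin (fun x hx => hx.1)
        exact ih (Nat.card P - Nat.card (P ⊓ Q' : Subgroup G)) (by omega) Q' h1 h2 rfl
      set X : Subgroup G := P ⊓ Q with hXdef
      have hXP : X ≠ P := by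
        intro e
        have hPQ : P ≤ Q := by
          rw [← e]
          exact inf_le_right
        have hQP := hP.max Q hQ.1.le hQ.1.pg hPQ
        exact hQ.2 1 M.one_mem (by rw [cj_one]; exact le_antisymm hQP hPQ)
      have hXQ : X ≠ Q := by
        intro e
        have hQP : Q ≤ P := by
          rw [← e]
          exact inf_le_left
        have hPQ := hQ.1.max P hP.le hP.pg hQP
        exact hQ.2 1 M.one_mem (by rw [cj_one]; exact le_antisymm hQP hPQ)
      have gP := grow hSt.hp hPfin hP.pg (inf_le_left : X ≤ P) hXP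
      have gQ := grow hSt.hp hQfin hQ.1.pg (inf_le_right : X ≤ Q) hXQ
      have hXfin : (X : Set G).Finite := hPfin.subset (fun x hx => hx.1)
      obtain ⟨T, hT1, hT2⟩ := hTORN G a p hSt X hXfin hX
      have hNP : P ⊓ normalizer (X : Set G) ≤ T ⊓ M := by
        intro x hx
        refine ⟨?_, hP.le hx.1⟩
        show x ∈ (T : Set G)
        rw [hT2]
        refine ⟨hx.2, ?_⟩
        have : Finite P := hPfin
        exact MonoidHom.isOfFinOrder P.subtype (isOfFinOrder_of_finite (⟨x, hx.1⟩ : P))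
      have hNQ : Q ⊓ normalizer (X : Set G) ≤ T ⊓ M := by
        intro x hx
        refine ⟨?_, hQ.1.le hx.1⟩
        show x ∈ (T : Set G)
        rw [hT2]
        refine ⟨hx.2, ?_⟩
        have : Finite Q := hQfin
        exact MonoidHom.isOfFinOrder Q.subtype (isOfFinOrder_of_finite (⟨x, hx.1⟩ : Q))
      have hcP : HasC a (P ⊓ normalizer (X : Set G)) :=
        hX.mono (le_inf inf_le_left le_normalizer)
      have hcQ : HasC a (Q ⊓ normalizer (X : Set G)) :=
        hX.mono (le_inf inf_le_right le_normalizer)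
      obtain ⟨Q', hb, h⟩ := step hSYLE hSt.hp hQ (hT1.subset (fun x hx => hx.1) :
        ((T ⊓ M : Subgroup G) : Set G).Finite) inf_le_right inf_le_left hNP inf_le_left hNQ
        (hP.pg.to_le inf_le_left) (hQ.1.pg.to_le inf_le_left) hcP
      have hfin' : ((P ⊓ Q' : Subgroup G) : Set G).Finite := hPfin.subset (fun x hx => hx.1)
      rcases h with h | ⟨y, h⟩
      · exact key Q' hb (hcP.mono h) (lt_of_lt_of_le gP (Nat.card_mono hfin' h))
      · refine key Q' hb ((hcQ.cj y).mono h) (lt_of_lt_of_le gQ ?_)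
        rw [← card_cj _ y]
        exact Nat.card_mono hfin' h
  -- Step 1
  have hbad : Bad a p M P Q₀ := ⟨hQ₀, hcon⟩
  obtain ⟨g, hg⟩ := hP.hc
  obtain ⟨h, hh⟩ := hQ₀.hc
  have hF := hSt.pair.conj_pair g h
  have pz : ∀ x : G, IsPGroup p (zpowers (x⁻¹ * a * x)) := by
    intro x
    have : Fact p.Prime := ⟨hSt.hp⟩
    apply IsPGroup.of_card (n := 1)
    rw [Nat.card_zpowers, (hSt.conj x).ord, pow_one]
  have hcA : HasC a (zpowers (g⁻¹ * a * g)) := ⟨g, mem_zpowers _⟩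
  have hcB : HasC a (zpowers (h⁻¹ * a * h)) := ⟨h, mem_zpowers _⟩
  obtain ⟨Q', hb, h'⟩ := step (A := zpowers (g⁻¹ * a * g)) (B := zpowers (h⁻¹ * a * h)) hSYLE hSt.hp hbad hF
    (by
      rw [closure_le]
      rintro x (rfl | rfl)
      · exact hP.le hg
      · exact hQ₀.le hh)
    (by rwa [zpowers_le]) (by
      rw [zpowers_le]
      exact subset_closure (Or.inl rfl))
    (by rwa [zpowers_le]) (by
      rw [zpowers_le]
      exact subset_closure (Or.inr rfl))
    (pz g) (pz h) hcA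
  rcases h' with h' | ⟨y, h'⟩
  · exact main _ Q' hb (hcA.mono h') rfl
  · exact main _ Q' hb ((hcB.cj y).mono h') rfl

end Pool.Agent.Helper84.SG.SYLC
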